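import Mathlib

set_option autoImplicit false

open scoped Polynomial PowerSeries

namespace Pool.Agent.Work.MP_6da7fa_al

/-- A formal power series `f` over `ℂ` is D-finite if it satisfies a nontrivial linear
differential equation `∑_{i ≤ r} p_i(t) f^{(i)}(t) = 0` with polynomial coefficients. -/
def DFinite (f : ℂ⟦X⟧) : Prop :=
  ∃ (r : ℕ) (p : Fin (r + 1) → ℂ[X]), (∃ i, p i ≠ 0) ∧
    ∑ i, ((p i : ℂ[X]) : ℂ⟦X⟧) * (PowerSeries.derivative ℂ)^[(i : ℕ)] f = 0

/-- the differential operator over `ℚ` -/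
noncomputable def opQ {r : ℕ} (q : Fin (r + 1) → ℚ[X]) (f : ℚ⟦X⟧) : ℚ⟦X⟧ :=
  ∑ i, ((q i : ℚ[X]) : ℚ⟦X⟧) * (PowerSeries.derivative ℚ)^[(i : ℕ)] f

lemma coeff_opQ {r : ℕ} (q : Fin (r + 1) → ℚ[X]) (f : ℚ⟦X⟧) (m : ℕ) :
    PowerSeries.coeff m (opQ q f) =
      ∑ i, ∑ x ∈ Finset.HasAntidiagonal.antidiagonal m,
        (q i).coeff x.1 * (((x.2 + 1).ascFactorial (i : ℕ) : ℚ) * PowerSeries.coeff (x.2 + i) f) := by
  unfold opQ
  rw [map_sum]
  refine Finset.sum_congr rfl (fun i _ => ?_)
  rw [PowerSeries.coeff_mul]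
  refine Finset.sum_congr rfl (fun x _ => ?_)
  rw [Polynomial.coeff_coe, PowerSeries.coeff_iterate_derivative]

/-- descent from `ℂ` to `ℚ` -/
lemma descend (f : ℚ⟦X⟧) (hf : DFinite (f.map (algebraMap ℚ ℂ))) :
    ∃ (r : ℕ) (q : Fin (r + 1) → ℚ[X]), (∃ i, q i ≠ 0) ∧ opQ q f = 0 := by
  obtain ⟨r, p, ⟨i0, hi0⟩, hp⟩ := hf
  obtain ⟨j0, hj0⟩ : ∃ j, (p i0).coeff j ≠ 0 := by
    by_contra hcon
    push Not at hcon
    exact hi0 (Polynomial.ext (by simpa using hcon))
  obtain ⟨φ, hφ⟩ : ∃ φ : Module.Dual ℚ ℂ, φ ((p i0).coeff j0) ≠ 0 := by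
    by_contra hcon
    push Not at hcon
    exact hj0 ((Module.forall_dual_apply_eq_zero_iff ℚ _).1 hcon)
  let q : Fin (r + 1) → ℚ[X] := fun i =>
    ∑ n ∈ (p i).support, Polynomial.monomial n (φ ((p i).coeff n))
  have hq : ∀ i n, (q i).coeff n = φ ((p i).coeff n) := by
    intro i n
    simp only [q, Polynomial.finsetSum_coeff, Polynomial.coeff_monomial]
    rw [Finset.sum_ite_eq']
    split_ifs with h
    · rfl
    · rw [Polynomial.notMem_support_iff.1 h, map_zero]
  refine ⟨r, q, ⟨i0, ?_⟩, ?_⟩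
  · intro h
    apply hφ
    rw [← hq, h, Polynomial.coeff_zero]
  · ext m
    rw [coeff_opQ, map_zero]
    have h1 := congrArg (PowerSeries.coeff m) hp
    rw [map_sum, map_zero] at h1
    have h2 := congrArg φ h1
    rw [map_sum, map_zero] at h2
    rw [← h2]
    refine Finset.sum_congr rfl (fun i _ => ?_)
    rw [PowerSeries.coeff_mul, map_sum]
    refine Finset.sum_congr rfl (fun x _ => ?_)
    rw [Polynomial.coeff_coe, PowerSeries.coeff_iterate_derivative, PowerSeries.coeff_map, hq]
    have e : (p i).coeff x.1 * ((((x.2 + 1).ascFactorial (i : ℕ) : ℕ) : ℂ) *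
        algebraMap ℚ ℂ (PowerSeries.coeff (x.2 + i) f))
        = (((((x.2 + 1).ascFactorial (i : ℕ) : ℕ) : ℚ) * PowerSeries.coeff (x.2 + i) f) : ℚ) •
          (p i).coeff x.1 := by
      rw [Algebra.smul_def, map_mul, map_natCast]
      ring
    rw [e, map_smul, smul_eq_mul, mul_comm]

/-- The indicial-type argument: a nonzero operator kills no nonzero series of large order. -/
lemma exists_bound {r : ℕ} (q : Fin (r + 1) → ℚ[X]) (hq : ∃ i, q i ≠ 0) :
    ∃ N : ℕ, ∀ h : ℚ⟦X⟧, opQ q h = 0 → (∀ n < N, PowerSeries.coeff n h = 0) → h = 0 := by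
  classical
  obtain ⟨i0, hi0⟩ := hq
  -- finite set of pairs
  let S : Finset (Fin (r + 1) × ℕ) :=
    (Finset.univ : Finset (Fin (r + 1))).biUnion (fun i => ((q i).support.image (fun a => (i, a))))
  have hS : ∀ i a, (i, a) ∈ S ↔ (q i).coeff a ≠ 0 := by
    intro i a
    simp only [S, Finset.mem_biUnion, Finset.mem_univ, true_and, Finset.mem_image,
      Polynomial.mem_support_iff, Prod.mk.injEq]
    constructor
    · rintro ⟨i', a', h, rfl, rfl⟩; exact h
    · intro h; exact ⟨i, a, h, rfl, rfl⟩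
  have hSne : S.Nonempty := by
    obtain ⟨j0, hj0⟩ : ∃ j, (q i0).coeff j ≠ 0 := by
      by_contra hcon
      push Not at hcon
      exact hi0 (Polynomial.ext (by simpa using hcon))
    exact ⟨(i0, j0), (hS _ _).2 hj0⟩
  obtain ⟨⟨i1, a1⟩, hm1, hmax⟩ := Finset.exists_max_image S
    (fun x => ((x.1 : ℕ) : ℤ) - (x.2 : ℤ)) hSne
  set s : ℤ := ((i1 : ℕ) : ℤ) - (a1 : ℤ) with hs
  -- the indicial polynomial
  let c : Fin (r + 1) → ℚ := fun i => if s ≤ (i : ℕ) then (q i).coeff (((i : ℕ) : ℤ) - s).toNat else 0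
  let P : ℚ[X] := ∑ i, Polynomial.C (c i) * descPochhammer ℚ (i : ℕ)
  have hc1 : c i1 ≠ 0 := by
    have h1 : s ≤ ((i1 : ℕ) : ℤ) := by rw [hs]; omega
    have h2 : (((i1 : ℕ) : ℤ) - s).toNat = a1 := by rw [hs]; simp
    simp only [c, if_pos h1, h2]
    exact (hS _ _).1 hm1
  have hP : P ≠ 0 := by
    -- take the maximal i with c i ≠ 0
    let T : Finset (Fin (r + 1)) := Finset.univ.filter (fun i => c i ≠ 0)
    have hT : T.Nonempty := ⟨i1, by simp [T, hc1]⟩
    obtain ⟨i2, hi2, hi2max⟩ := Finset.exists_max_image T (fun i => (i : ℕ)) hT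
    have hi2' : c i2 ≠ 0 := by simpa [T] using hi2
    intro hP0
    have h1 : P.coeff (i2 : ℕ) = c i2 := by
      simp only [P, Polynomial.finsetSum_coeff, Polynomial.coeff_C_mul]
      rw [Finset.sum_eq_single i2]
      · have : (descPochhammer ℚ (i2 : ℕ)).coeff (i2 : ℕ) = 1 := by
          have h := monic_descPochhammer ℚ (i2 : ℕ)
          rw [Polynomial.Monic, Polynomial.leadingCoeff, descPochhammer_natDegree] at h
          exact h
        rw [this, mul_one]
      · intro i _ hne
        by_cases hci : c i = 0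
        · rw [hci, zero_mul]
        · have hle : (i : ℕ) ≤ i2 := hi2max i (by simp [T, hci])
          have hlt : (i : ℕ) < i2 := lt_of_le_of_ne hle (fun h => hne (Fin.ext h))
          rw [Polynomial.coeff_eq_zero_of_natDegree_lt, mul_zero]
          rw [descPochhammer_natDegree]
          exact hlt
      · intro h; exact absurd (Finset.mem_univ _) h
    rw [hP0, Polynomial.coeff_zero] at h1
    exact hi2' h1.symm
  -- bound on roots
  obtain ⟨B, hB⟩ : ∃ B : ℕ, ∀ v : ℕ, B ≤ v → P.eval (v : ℚ) ≠ 0 := by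
    let R := P.roots.toFinset
    have hfin : (R : Set ℚ).Finite := R.finite_toSet
    obtain ⟨b, hb⟩ := hfin.bddAbove
    obtain ⟨B, hB⟩ := exists_nat_gt b
    refine ⟨B, fun v hv h0 => ?_⟩
    have : (v : ℚ) ∈ (R : Set ℚ) := by
      simp only [R, Finset.mem_coe, Multiset.mem_toFinset, Polynomial.mem_roots', ne_eq]
      exact ⟨hP, h0⟩
    have h1 := hb this
    have h2 : (B : ℚ) ≤ v := by exact_mod_cast hv
    linarith
  refine ⟨max B (s.toNat), fun h hop hlow => ?_⟩
  by_contra hne
  -- order of h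
  have hex : ∃ n, PowerSeries.coeff n h ≠ 0 := by
    by_contra hcon
    push Not at hcon
    exact hne (PowerSeries.ext (by simpa using hcon))
  let v := Nat.find hex
  have hv : PowerSeries.coeff v h ≠ 0 := Nat.find_spec hex
  have hvmin : ∀ n < v, PowerSeries.coeff n h = 0 := by
    intro n hn
    have := Nat.find_min hex hn
    push Not at this
    exact this
  have hvN : max B (s.toNat) ≤ v := by
    by_contra hlt
    push Not at hlt
    exact hv (hlow v hlt)
  have hvB : B ≤ v := le_trans (le_max_left _ _) hvN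
  have hvs : s ≤ (v : ℤ) := by
    have : s.toNat ≤ v := le_trans (le_max_right _ _) hvN
    omega
  -- the coefficient at m = v - s
  obtain ⟨m, hm⟩ : ∃ m : ℕ, (m : ℤ) = v - s := ⟨((v : ℤ) - s).toNat, by omega⟩
  have hcoef := congrArg (PowerSeries.coeff m) hop
  rw [coeff_opQ, map_zero] at hcoef
  have hterm : ∀ i : Fin (r + 1), ∑ x ∈ Finset.HasAntidiagonal.antidiagonal m,
        (q i).coeff x.1 * (((x.2 + 1).ascFactorial (i : ℕ) : ℚ) * PowerSeries.coeff (x.2 + i) h)
        = c i * ((v.descFactorial i : ℕ) : ℚ) * PowerSeries.coeff v h := by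
    intro i
    -- each term with x.1 ≠ i - s vanishes
    have hvan : ∀ x ∈ Finset.HasAntidiagonal.antidiagonal m, ¬ ((x.1 : ℤ) = i - s) →
        (q i).coeff x.1 * (((x.2 + 1).ascFactorial (i : ℕ) : ℚ) *
          PowerSeries.coeff (x.2 + i) h) = 0 := by
      intro x hx hne'
      rw [Finset.HasAntidiagonal.mem_antidiagonal] at hx
      by_cases hq0 : (q i).coeff x.1 = 0
      · rw [hq0, zero_mul]
      · have h1 := hmax (i, x.1) ((hS _ _).2 hq0)
        simp only at h1
        have h2 : x.2 + (i : ℕ) < v := by omega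
        rw [hvmin _ h2, mul_zero, mul_zero]
    by_cases his : s ≤ ((i : ℕ) : ℤ)
    · have hci : c i = (q i).coeff (((i : ℕ) : ℤ) - s).toNat := by simp only [c, if_pos his]
      by_cases ham : (((i : ℕ) : ℤ) - s).toNat ≤ m
      · have hmem : ((((i : ℕ) : ℤ) - s).toNat, m - (((i : ℕ) : ℤ) - s).toNat)
            ∈ Finset.HasAntidiagonal.antidiagonal m := by
          rw [Finset.HasAntidiagonal.mem_antidiagonal]; omega
        rw [Finset.sum_eq_single_of_mem _ hmem]
        · simp only
          rw [hci]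
          have e1 : m - (((i : ℕ) : ℤ) - s).toNat + i = v := by omega
          rw [e1]
          have e2 : (m - (((i : ℕ) : ℤ) - s).toNat + 1).ascFactorial (i : ℕ)
              = v.descFactorial i := by
            have := Nat.add_descFactorial_eq_ascFactorial (m - (((i : ℕ) : ℤ) - s).toNat) (i : ℕ)
            rw [← this, e1]
          rw [e2]
          ring
        · intro x hx hne'
          apply hvan x hx
          intro h3
          apply hne'
          rw [Finset.HasAntidiagonal.mem_antidiagonal] at hx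
          apply Prod.ext
          · simp only; omega
          · simp only; omega
      · -- then i > v so both sides vanish
        have h4 : v < (i : ℕ) := by omega
        rw [Nat.descFactorial_of_lt h4]
        simp only [Nat.cast_zero, mul_zero, zero_mul]
        apply Finset.sum_eq_zero
        intro x hx
        apply hvan x hx
        intro h3
        rw [Finset.HasAntidiagonal.mem_antidiagonal] at hx
        omega
    · have hci : c i = 0 := by simp only [c, if_neg his]
      rw [hci, zero_mul, zero_mul]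
      apply Finset.sum_eq_zero
      intro x hx
      apply hvan x hx
      intro h3
      omega
  rw [Finset.sum_congr rfl (fun i _ => hterm i), ← Finset.sum_mul] at hcoef
  have hPe : ∑ i : Fin (r + 1), c i * ((v.descFactorial i : ℕ) : ℚ) = P.eval (v : ℚ) := by
    simp only [P, Polynomial.eval_finsetSum, Polynomial.eval_mul, Polynomial.eval_C,
      descPochhammer_eval_eq_descFactorial]
  rw [hPe] at hcoef
  rcases mul_eq_zero.1 hcoef with h5 | h5
  · exact hB v hvB h5
  · exact hv h5

lemma opQ_sub {r : ℕ} (q : Fin (r + 1) → ℚ[X]) (f g : ℚ⟦X⟧) :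
    opQ q (f - g) = opQ q f - opQ q g := by
  ext m
  simp only [map_sub, coeff_opQ]
  rw [← Finset.sum_sub_distrib]
  refine Finset.sum_congr rfl (fun i _ => ?_)
  rw [← Finset.sum_sub_distrib]
  refine Finset.sum_congr rfl (fun x _ => ?_)
  ring

lemma countable_sol {r : ℕ} (q : Fin (r + 1) → ℚ[X]) (hq : ∃ i, q i ≠ 0) :
    {f : ℚ⟦X⟧ | opQ q f = 0}.Countable := by
  obtain ⟨N, hN⟩ := exists_bound q hq
  let φ : ℚ⟦X⟧ → (Fin N → ℚ) := fun f n => PowerSeries.coeff (n : ℕ) f
  refine Set.MapsTo.countable_of_injOn (f := φ) (t := Set.univ) (fun _ _ => Set.mem_univ _) ?_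
    (Set.countable_univ)
  intro f hf g hg hfg
  have h1 : opQ q (f - g) = 0 := by
    rw [opQ_sub, hf, hg, sub_zero]
  have h2 := hN (f - g) h1 (fun n hn => by
    have := congrFun hfg ⟨n, hn⟩
    simp only [φ] at this
    rw [map_sub, this, sub_self])
  exact sub_eq_zero.1 h2

/-- There are only countably many power series with rational coefficients that are D-finite. -/
theorem countable_dfinite : {f : ℚ⟦X⟧ | DFinite (f.map (algebraMap ℚ ℂ))}.Countable := by
  have hsub : {f : ℚ⟦X⟧ | DFinite (f.map (algebraMap ℚ ℂ))} ⊆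
      ⋃ (x : Σ r : ℕ, {q : Fin (r + 1) → ℚ[X] // ∃ i, q i ≠ 0}),
        {f : ℚ⟦X⟧ | opQ x.2.1 f = 0} := by
    intro f hf
    obtain ⟨r, q, hq, h⟩ := descend f hf
    rw [Set.mem_iUnion]
    exact ⟨⟨r, ⟨q, hq⟩⟩, h⟩
  have hc : Countable ℚ[X] := by
    have : Countable (ℕ →₀ ℚ) := inferInstance
    refine Function.Injective.countable (f := fun p : ℚ[X] =>
      (Finsupp.onFinset p.support (fun n => p.coeff n)
        (fun n hn => Polynomial.mem_support_iff.2 hn) : ℕ →₀ ℚ)) ?_
    intro a b h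
    ext n
    exact DFunLike.congr_fun h n
  refine Set.Countable.mono hsub (Set.countable_iUnion (fun x => countable_sol x.2.1 x.2.2))

end Pool.Agent.Work.MP_6da7fa_al
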