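import Mathlib
import Pool.Agent.Work.MP_6da7fa_al.DFin

set_option autoImplicit false

open scoped Polynomial PowerSeries

namespace Pool.Agent.Work.MP_6da7fa_al

/-- For `k = i + j`, `σ ∈ S_i` and `τ ∈ S_j`, the element `σ × τ` of `S_k` in which `σ` acts on the
first `i` letters and `τ` on the last `j` letters. -/
def blockSum {i j k : ℕ} (h : i + j = k) (σ : Equiv.Perm (Fin i)) (τ : Equiv.Perm (Fin j)) :
    Equiv.Perm (Fin k) :=
  (finSumFinEquiv.trans (finCongr h)).permCongr (Equiv.sumCongr σ τ)

/-- For `k = n + m`, the permutation `τ_{m,n} ∈ S_k` that exchanges the block of the first `m`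
letters with the block of the last `n` letters: `x ↦ x + n` for `x < m` and `x ↦ x - m`
for `x ≥ m`. -/
def blockSwap {n m k : ℕ} (h : n + m = k) : Equiv.Perm (Fin k) :=
  ((finCongr ((Nat.add_comm m n).trans h).symm).trans finAddFlip).trans (finCongr h)

/-- sanity check of `blockSwap` on values. -/
lemma blockSwap_val {n m k : ℕ} (h : n + m = k) (x : Fin k) :
    ((blockSwap h x : Fin k) : ℕ) = if (x : ℕ) < m then (x : ℕ) + n else (x : ℕ) - m := by
  subst h
  obtain ⟨y, hy⟩ : ∃ y : Fin (m + n), finCongr (by omega : n + m = m + n) x = y := ⟨_, rfl⟩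
  have hxy : (x : ℕ) = y := by rw [← hy]; simp
  have h1 : blockSwap (rfl : n + m = n + m) x = finAddFlip y := by
    rw [← hy]; simp [blockSwap]
  rw [h1, hxy]
  refine Fin.addCases (fun i => ?_) (fun j => ?_) y
  · simp [Nat.add_comm]
  · simp

/-- A sequence `V_0, V_1, ...` of complex representations of the symmetric groups
`S_0, S_1, ...`. -/
structure SymSeq (V : ℕ → Type) [∀ n, AddCommGroup (V n)] [∀ n, Module ℂ (V n)] where
  act : ∀ n, Equiv.Perm (Fin n) → V n → V n
  act_one : ∀ n (v : V n), act n 1 v = v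
  act_mul : ∀ n (σ τ : Equiv.Perm (Fin n)) (v : V n), act n (σ * τ) v = act n σ (act n τ v)
  act_add : ∀ n (σ : Equiv.Perm (Fin n)) (v w : V n), act n σ (v + w) = act n σ v + act n σ w
  act_smul : ∀ n (σ : Equiv.Perm (Fin n)) (c : ℂ) (v : V n), act n σ (c • v) = c • act n σ v

section
variable {U V W : ℕ → Type} [∀ n, AddCommGroup (U n)] [∀ n, Module ℂ (U n)]
  [∀ n, AddCommGroup (V n)] [∀ n, Module ℂ (V n)] [∀ n, AddCommGroup (W n)] [∀ n, Module ℂ (W n)]

/-- A bilinear graded pairing `U_i × V_j → W_k`, `k = i + j`, that is `S_i × S_j`-equivariant. -/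
structure Pairing (sU : SymSeq U) (sV : SymSeq V) (sW : SymSeq W) where
  app : ∀ {i j k : ℕ}, i + j = k → U i → V j → W k
  add_left : ∀ {i j k : ℕ} (h : i + j = k) (a b : U i) (v : V j),
    app h (a + b) v = app h a v + app h b v
  add_right : ∀ {i j k : ℕ} (h : i + j = k) (a : U i) (v w : V j),
    app h a (v + w) = app h a v + app h a w
  smul_left : ∀ {i j k : ℕ} (h : i + j = k) (c : ℂ) (a : U i) (v : V j),
    app h (c • a) v = c • app h a v
  smul_right : ∀ {i j k : ℕ} (h : i + j = k) (c : ℂ) (a : U i) (v : V j),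
    app h a (c • v) = c • app h a v
  equivariant : ∀ {i j k : ℕ} (h : i + j = k) (σ : Equiv.Perm (Fin i)) (τ : Equiv.Perm (Fin j))
    (a : U i) (v : V j), app h (sU.act i σ a) (sV.act j τ v) = sW.act k (blockSum h σ τ) (app h a v)
end

/-- A twisted commutative algebra over `ℂ`: a graded associative unital algebra
`A = ⊕ A_n` with a linear action of `S_n` on every `A_n`, such that the multiplication
`A_i ⊗ A_j → A_{i+j}` is `S_i × S_j`-equivariant and `ab = τ_{m,n} (ba)` for `a ∈ A_n`, `b ∈ A_m`.
To avoid casts, the product of `A_i` and `A_j` lands in `A_k` for every `k` with `i + j = k`. -/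
structure TCA (A : ℕ → Type) [∀ n, AddCommGroup (A n)] [∀ n, Module ℂ (A n)] where
  seq : SymSeq A
  mul : Pairing seq seq seq
  one : A 0
  one_mul : ∀ {n : ℕ} (h : 0 + n = n) (a : A n), mul.app h one a = a
  mul_one : ∀ {n : ℕ} (h : n + 0 = n) (a : A n), mul.app h a one = a
  mul_assoc : ∀ {i j k p q n : ℕ} (h₁ : i + j = p) (h₂ : p + k = n) (h₃ : j + k = q)
    (h₄ : i + q = n) (a : A i) (b : A j) (c : A k),
    mul.app h₂ (mul.app h₁ a b) c = mul.app h₄ a (mul.app h₃ b c)
  comm : ∀ {n m k : ℕ} (h : n + m = k) (h' : m + n = k) (a : A n) (b : A m),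
    mul.app h a b = seq.act k (blockSwap h) (mul.app h' b a)

section
variable {A : ℕ → Type} [∀ n, AddCommGroup (A n)] [∀ n, Module ℂ (A n)]

/-- `A` is finitely generated as a tca: there is a finite set `s` of homogeneous elements such that
a graded subspace containing `s` and the unit, and stable under the symmetric groups and under
multiplication, is everything. -/
def TCA.FG (R : TCA A) : Prop :=
  ∃ s : Finset (Σ n, A n), ∀ B : (n : ℕ) → Submodule ℂ (A n), (∀ x ∈ s, x.2 ∈ B x.1) →
    R.one ∈ B 0 → (∀ n σ, ∀ a ∈ B n, R.seq.act n σ a ∈ B n) →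
    (∀ {i j k : ℕ} (h : i + j = k), ∀ a ∈ B i, ∀ b ∈ B j, R.mul.app h a b ∈ B k) →
    ∀ n, B n = ⊤

/-- A module over a tca `A`: a graded module `M = ⊕ M_n` with a linear action of `S_n` on every
`M_n` such that `A_i ⊗ M_j → M_{i+j}` is `S_i × S_j`-equivariant. -/
structure TCAModule (R : TCA A) (M : ℕ → Type) [∀ n, AddCommGroup (M n)] [∀ n, Module ℂ (M n)] where
  seq : SymSeq M
  smul : Pairing R.seq seq seq
  one_smul : ∀ {n : ℕ} (h : 0 + n = n) (x : M n), smul.app h R.one x = x
  mul_smul : ∀ {i j k p q n : ℕ} (h₁ : i + j = p) (h₂ : p + k = n) (h₃ : j + k = q)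
    (h₄ : i + q = n) (a : A i) (b : A j) (x : M k),
    smul.app h₂ (R.mul.app h₁ a b) x = smul.app h₄ a (smul.app h₃ b x)

variable {R : TCA A} {M : ℕ → Type} [∀ n, AddCommGroup (M n)] [∀ n, Module ℂ (M n)]

/-- A submodule of `M`: a family of subspaces stable under the symmetric groups and under the
action of `A`. -/
structure SubMod (S : TCAModule R M) where
  carrier : ∀ n, Submodule ℂ (M n)
  act_mem : ∀ (n : ℕ) (σ : Equiv.Perm (Fin n)), ∀ x ∈ carrier n, S.seq.act n σ x ∈ carrier n
  smul_mem : ∀ {i j k : ℕ} (h : i + j = k) (a : A i), ∀ x ∈ carrier j,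
    S.smul.app h a x ∈ carrier k

/-- A submodule `N` of `M` is finitely generated: it contains a finite set of homogeneous elements
such that every submodule containing that set contains `N`. -/
def SubMod.FG {S : TCAModule R M} (N : SubMod S) : Prop :=
  ∃ s : Finset (Σ n, M n), (∀ x ∈ s, x.2 ∈ N.carrier x.1) ∧
    ∀ N' : SubMod S, (∀ x ∈ s, x.2 ∈ N'.carrier x.1) → ∀ n, N.carrier n ≤ N'.carrier n

/-- `M` is finitely generated: some finite set of homogeneous elements is contained in no proper
submodule. -/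
def TCAModule.FG (S : TCAModule R M) : Prop :=
  ∃ s : Finset (Σ n, M n), ∀ N : SubMod S, (∀ x ∈ s, x.2 ∈ N.carrier x.1) →
    ∀ n, N.carrier n = ⊤
end

/-- The Hilbert series `∑ dim (M_n) t^n / n!`. -/
noncomputable def hilb (M : ℕ → Type) [∀ n, AddCommGroup (M n)] [∀ n, Module ℂ (M n)] : ℂ⟦X⟧ :=
  PowerSeries.mk fun n => (Module.finrank ℂ (M n) : ℂ) / (n.factorial : ℂ)

section
variable {A : ℕ → Type} [∀ n, AddCommGroup (A n)] [∀ n, Module ℂ (A n)] {R : TCA A}
  {M : ℕ → Type} [∀ n, AddCommGroup (M n)] [∀ n, Module ℂ (M n)]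

/-- action as a linear map -/
def SymSeq.actL (s : SymSeq M) (n : ℕ) (σ : Equiv.Perm (Fin n)) : M n →ₗ[ℂ] M n where
  toFun := s.act n σ
  map_add' := s.act_add n σ
  map_smul' c v := s.act_smul n σ c v

/-- module action as a linear map -/
def TCAModule.smulL (S : TCAModule R M) {i j k : ℕ} (h : i + j = k) (a : A i) : M j →ₗ[ℂ] M k where
  toFun := S.smul.app h a
  map_add' := S.smul.add_right h a
  map_smul' c v := S.smul.smul_right h c a v

/-- The quotient module `M / N`. -/
def TCAModule.quot (S : TCAModule R M) (N : SubMod S) :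
    TCAModule R (fun n => M n ⧸ N.carrier n) where
  seq :=
    { act := fun n σ => Submodule.mapQ _ _ (S.seq.actL n σ) (fun _ hx => N.act_mem n σ _ hx)
      act_one := by
        intro n x
        obtain ⟨x, rfl⟩ := Submodule.Quotient.mk_surjective _ x
        rw [Submodule.mapQ_apply]
        exact congrArg _ (S.seq.act_one n x)
      act_mul := by
        intro n σ τ x
        obtain ⟨x, rfl⟩ := Submodule.Quotient.mk_surjective _ x
        simp only [Submodule.mapQ_apply]
        exact congrArg _ (S.seq.act_mul n σ τ x)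
      act_add := by
        intro n σ v w
        exact map_add _ v w
      act_smul := by
        intro n σ c v
        exact map_smul _ c v }
  smul :=
    { app := fun {i j k} h a =>
        Submodule.mapQ _ _ (S.smulL h a) (fun _ hx => N.smul_mem h a _ hx)
      add_left := by
        intro i j k h a b x
        obtain ⟨x, rfl⟩ := Submodule.Quotient.mk_surjective _ x
        simp only [Submodule.mapQ_apply, ← Submodule.Quotient.mk_add]
        exact congrArg _ (S.smul.add_left h a b x)
      add_right := by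
        intro i j k h a v w
        exact map_add _ v w
      smul_left := by
        intro i j k h c a x
        obtain ⟨x, rfl⟩ := Submodule.Quotient.mk_surjective _ x
        simp only [Submodule.mapQ_apply, ← Submodule.Quotient.mk_smul]
        exact congrArg _ (S.smul.smul_left h c a x)
      smul_right := by
        intro i j k h c a v
        exact map_smul _ c v
      equivariant := by
        intro i j k h σ τ a x
        obtain ⟨x, rfl⟩ := Submodule.Quotient.mk_surjective _ x
        simp only [Submodule.mapQ_apply]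
        exact congrArg _ (S.smul.equivariant h σ τ a x) }
  one_smul := by
    intro n h x
    obtain ⟨x, rfl⟩ := Submodule.Quotient.mk_surjective _ x
    simp only [Submodule.mapQ_apply]
    exact congrArg _ (S.one_smul h x)
  mul_smul := by
    intro i j k p q n h₁ h₂ h₃ h₄ a b x
    obtain ⟨x, rfl⟩ := Submodule.Quotient.mk_surjective _ x
    simp only [Submodule.mapQ_apply]
    exact congrArg _ (S.mul_smul h₁ h₂ h₃ h₄ a b x)

/-- pull back of a submodule of a quotient. -/
def comapQuot {S : TCAModule R M} (N : SubMod S) (P : SubMod (S.quot N)) : SubMod S where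
  carrier n := (P.carrier n).comap (N.carrier n).mkQ
  act_mem n σ x hx := by
    rw [Submodule.mem_comap] at hx ⊢
    exact P.act_mem n σ _ hx
  smul_mem {i j k} h a x hx := by
    rw [Submodule.mem_comap] at hx ⊢
    exact P.smul_mem h a _ hx

lemma quot_fg {S : TCAModule R M} (hM : S.FG) (N : SubMod S) : (S.quot N).FG := by
  classical
  obtain ⟨s, hs⟩ := hM
  refine ⟨s.image (fun x => (⟨x.1, (N.carrier x.1).mkQ x.2⟩ : Σ n, M n ⧸ N.carrier n)),
    fun P hP n => ?_⟩
  have h1 := hs (comapQuot N P) (fun x hx => by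
    show x.2 ∈ (P.carrier x.1).comap (N.carrier x.1).mkQ
    rw [Submodule.mem_comap]
    exact hP ⟨x.1, (N.carrier x.1).mkQ x.2⟩ (Finset.mem_image_of_mem _ hx)) n
  rw [eq_top_iff]
  intro y _
  obtain ⟨x, rfl⟩ := Submodule.Quotient.mk_surjective _ y
  have : x ∈ (comapQuot N P).carrier n := by rw [h1]; trivial
  exact this

variable {S : TCAModule R M}

/-- the submodule generated by the parts `N_n`, `n ∈ T`, of a submodule `N`. -/
def SubMod.gen (N : SubMod S) (T : Set ℕ) : SubMod S where
  carrier n := ⨅ (P : {P : SubMod S // ∀ k ∈ T, N.carrier k ≤ P.carrier k}), P.1.carrier n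
  act_mem n σ x hx := by
    rw [Submodule.mem_iInf] at hx ⊢
    exact fun P => P.1.act_mem n σ x (hx P)
  smul_mem {i j k} h a x hx := by
    rw [Submodule.mem_iInf] at hx ⊢
    exact fun P => P.1.smul_mem h a x (hx P)

lemma gen_le (N : SubMod S) (T : Set ℕ) (P : SubMod S) (hP : ∀ k ∈ T, N.carrier k ≤ P.carrier k)
    (n : ℕ) : (N.gen T).carrier n ≤ P.carrier n :=
  iInf_le (fun P : {P : SubMod S // ∀ k ∈ T, N.carrier k ≤ P.carrier k} => P.1.carrier n) ⟨P, hP⟩

lemma le_gen (N : SubMod S) (T : Set ℕ) (k : ℕ) (hk : k ∈ T) :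
    N.carrier k ≤ (N.gen T).carrier k :=
  le_iInf (fun P => P.2 k hk)

lemma gen_le_self (N : SubMod S) (T : Set ℕ) (n : ℕ) : (N.gen T).carrier n ≤ N.carrier n :=
  gen_le N T N (fun _ _ => le_rfl) n

lemma gen_eq_of_mem (N : SubMod S) (T : Set ℕ) (d : ℕ) (hd : d ∈ T) :
    (N.gen T).carrier d = N.carrier d :=
  le_antisymm (gen_le_self N T d) (le_gen N T d hd)

open Classical in
/-- truncation: keep `P` in degrees `≤ d`, everything above. -/
noncomputable def SubMod.upper (P : SubMod S) (d : ℕ) : SubMod S where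
  carrier n := if n ≤ d then P.carrier n else ⊤
  act_mem n σ x hx := by
    split_ifs at hx ⊢ with h
    · exact P.act_mem n σ x hx
    · trivial
  smul_mem {i j k} h a x hx := by
    split_ifs at hx ⊢ with h1 h2
    · exact P.smul_mem h a x hx
    · omega
    · trivial
    · trivial

lemma gen_le_lower (N : SubMod S) (T : Set ℕ) (d : ℕ) (hd : d ∉ T) :
    (N.gen T).carrier d ≤ (N.gen {n | n < d}).carrier d := by
  have h1 := gen_le N T ((N.gen {n | n < d}).upper d) (by
    intro k hk
    show N.carrier k ≤ if k ≤ d then (N.gen {n | n < d}).carrier k else ⊤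
    split_ifs with h
    · have hne : k ≠ d := fun h => hd (h ▸ hk)
      exact le_gen N _ k (lt_of_le_of_ne h hne)
    · exact le_top) d
  have h2 : ((N.gen {n | n < d}).upper d).carrier d = (N.gen {n | n < d}).carrier d := by
    show (if d ≤ d then (N.gen {n | n < d}).carrier d else ⊤) = _
    rw [if_pos le_rfl]
  rwa [h2] at h1

/-- the set of degrees in which `N` needs new generators. -/
def newDeg (N : SubMod S) : Set ℕ := {d | (N.gen {n | n < d}).carrier d ≠ N.carrier d}

lemma newDeg_infinite (hfd : ∀ n, FiniteDimensional ℂ (M n)) (N : SubMod S) (hN : ¬ N.FG) :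
    (newDeg N).Infinite := by
  classical
  intro hfin
  apply hN
  obtain ⟨B, hB⟩ := hfin.bddAbove
  have hgen : ∀ d, N.carrier d ≤ (N.gen {n | n ≤ B}).carrier d := by
    intro d
    induction d using Nat.strong_induction_on with
    | _ d ih =>
      by_cases hd : d ≤ B
      · exact le_gen N _ d hd
      · have h1 : d ∉ newDeg N := fun h => hd (hB h)
        have h2 : (N.gen {n | n < d}).carrier d = N.carrier d := by
          by_contra h; exact h1 h
        rw [← h2]
        exact gen_le N _ _ (fun k hk => ih k hk) d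
  -- choose finite spanning sets in degrees ≤ B
  have hspan : ∀ n, ∃ t : Finset (M n), Submodule.span ℂ (t : Set (M n)) = N.carrier n := by
    intro n
    have : (N.carrier n).FG := IsNoetherian.noetherian _
    exact this
  choose t ht using hspan
  refine ⟨(Finset.range (B + 1)).sigma (fun n => t n), ?_, ?_⟩
  · rintro ⟨n, x⟩ hx
    rw [Finset.mem_sigma] at hx
    rw [← ht n]
    exact Submodule.subset_span hx.2
  · intro N' hN' n
    refine le_trans (hgen n) (gen_le N _ N' ?_ n)
    intro k hk
    rw [← ht k, Submodule.span_le]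
    intro x hx
    exact hN' ⟨k, x⟩ (Finset.mem_sigma.2 ⟨Finset.mem_range.2 (Nat.lt_succ_of_le hk), hx⟩)

/-- rational version of the Hilbert series of `M / gen T`. -/
noncomputable def hq (N : SubMod S) (T : Set ℕ) : ℚ⟦X⟧ :=
  PowerSeries.mk fun n =>
    (Module.finrank ℂ (M n ⧸ (N.gen T).carrier n) : ℚ) / (n.factorial : ℚ)

lemma map_hq (N : SubMod S) (T : Set ℕ) :
    (hq N T).map (algebraMap ℚ ℂ) = hilb (fun n => M n ⧸ (N.gen T).carrier n) := by
  ext n
  rw [PowerSeries.coeff_map]
  simp [hq, hilb]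

lemma finrank_lt (hfd : ∀ n, FiniteDimensional ℂ (M n)) (N : SubMod S) (T₁ T₂ : Set ℕ) (d : ℕ)
    (hd : d ∈ newDeg N) (h₂ : d ∈ T₂) (h₁ : d ∉ T₁) :
    Module.finrank ℂ (M d ⧸ (N.gen T₂).carrier d) < Module.finrank ℂ (M d ⧸ (N.gen T₁).carrier d) := by
  have h1 : (N.gen T₁).carrier d < (N.gen T₂).carrier d := by
    rw [gen_eq_of_mem N T₂ d h₂]
    refine lt_of_le_of_lt (gen_le_lower N T₁ d h₁) ?_
    exact lt_of_le_of_ne (gen_le_self N _ d) hd
  have h2 := Submodule.finrank_lt_finrank_of_lt h1
  have h3 := Submodule.finrank_quotient_add_finrank ((N.gen T₁).carrier d)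
  have h4 := Submodule.finrank_quotient_add_finrank ((N.gen T₂).carrier d)
  omega

lemma hq_injOn (hfd : ∀ n, FiniteDimensional ℂ (M n)) (N : SubMod S) (T₁ T₂ : Set ℕ)
    (hS : T₁ ⊆ newDeg N) (hT : T₂ ⊆ newDeg N) (h : hq N T₁ = hq N T₂) : T₁ = T₂ := by
  have hcoef : ∀ n, Module.finrank ℂ (M n ⧸ (N.gen T₁).carrier n)
      = Module.finrank ℂ (M n ⧸ (N.gen T₂).carrier n) := by
    intro n
    have h1 := congrArg (PowerSeries.coeff n) h
    simp only [hq, PowerSeries.coeff_mk] at h1
    have h2 : (n.factorial : ℚ) ≠ 0 := by exact_mod_cast n.factorial_ne_zero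
    rw [div_left_inj' h2] at h1
    exact_mod_cast h1
  ext d
  constructor
  · intro hd
    by_contra hdT
    have := finrank_lt hfd N T₂ T₁ d (hS hd) hd hdT
    rw [hcoef] at this
    exact lt_irrefl _ this
  · intro hd
    by_contra hdS
    have := finrank_lt hfd N T₁ T₂ d (hT hd) hd hdS
    rw [hcoef] at this
    exact lt_irrefl _ this

/-- If `M` has a submodule that is not finitely generated then uncountably many non-D-finite series
occur as Hilbert series of quotients of `M`. -/
theorem uncountable_not_dfinite (hfd : ∀ n, FiniteDimensional ℂ (M n)) (N : SubMod S)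
    (hN : ¬ N.FG) :
    ¬ {H : ℂ⟦X⟧ | ¬ DFinite H ∧ ∃ N' : SubMod S, hilb (fun n => M n ⧸ N'.carrier n) = H}.Countable := by
  intro hcount
  have hinf := newDeg_infinite hfd N hN
  have e := hinf.natEmbedding
  have hinjmap : Function.Injective (fun f : ℚ⟦X⟧ => f.map (algebraMap ℚ ℂ)) := by
    intro f g hfg
    ext n
    have h1 := congrArg (PowerSeries.coeff n) hfg
    simp only [PowerSeries.coeff_map] at h1
    exact (algebraMap ℚ ℂ).injective h1
  have hcount' : {f : ℚ⟦X⟧ | ¬ DFinite (f.map (algebraMap ℚ ℂ)) ∧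
      ∃ N' : SubMod S, hilb (fun n => M n ⧸ N'.carrier n) = f.map (algebraMap ℚ ℂ)}.Countable :=
    hcount.preimage hinjmap
  have hall : {f : ℚ⟦X⟧ |
      ∃ N' : SubMod S, hilb (fun n => M n ⧸ N'.carrier n) = f.map (algebraMap ℚ ℂ)}.Countable := by
    refine (hcount'.union countable_dfinite).mono ?_
    intro f hf
    by_cases h : DFinite (f.map (algebraMap ℚ ℂ))
    · exact Or.inr h
    · exact Or.inl ⟨h, hf⟩
  -- map Set ℕ injectively into the countable set
  let φ : Set ℕ → {f : ℚ⟦X⟧ |
      ∃ N' : SubMod S, hilb (fun n => M n ⧸ N'.carrier n) = f.map (algebraMap ℚ ℂ)} :=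
    fun T => ⟨hq N ((fun n => (e n : ℕ)) '' T), ⟨_, (map_hq N _).symm⟩⟩
  have hφ : Function.Injective φ := by
    intro T₁ T₂ hST
    have h1 : hq N ((fun n => (e n : ℕ)) '' T₁) = hq N ((fun n => (e n : ℕ)) '' T₂) :=
      congrArg Subtype.val hST
    have h2 := hq_injOn hfd N _ _ (by rintro _ ⟨n, _, rfl⟩; exact (e n).2)
      (by rintro _ ⟨n, _, rfl⟩; exact (e n).2) h1
    have hinj : Function.Injective (fun n => (e n : ℕ)) :=
      Subtype.val_injective.comp e.injective
    exact (Set.image_injective.2 hinj) h2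
  have hc := hall.to_subtype
  have : Countable (Set ℕ) := hφ.countable
  obtain ⟨g, hg⟩ := exists_injective_nat (Set ℕ)
  exact Function.cantor_injective g hg

end

end Pool.Agent.Work.MP_6da7fa_al
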